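import Mathlib
import Pool.Agent.Lib.helper3.Girth

set_option autoImplicit false

namespace Pool.Agent.Results.MP_8cd00c_co.Cex

open SimpleGraph

variable {V : Type}

/-- no cycle is monochromatic -/
def Woody (G : SimpleGraph V) (c : Sym2 V → ℕ) : Prop :=
  ∀ u (p : G.Walk u u), p.IsCycle → ¬ ∃ γ, ∀ f ∈ p.edges, c f = γ

/-- no broken cycle (cycle minus one of its edges) is monochromatic -/
def StronglyWoody (G : SimpleGraph V) (c : Sym2 V → ℕ) : Prop :=
  ∀ u (p : G.Walk u u), p.IsCycle → ∀ e ∈ p.edges, ¬ ∃ γ, ∀ f ∈ p.edges, f ≠ e → c f = γ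

noncomputable def arb (G : SimpleGraph V) : ℕ :=
  sInf {k | ∃ c : Sym2 V → ℕ, (∀ e ∈ G.edgeSet, c e < k) ∧ Woody G c}

noncomputable def zeta (G : SimpleGraph V) : ℕ :=
  sInf {k | ∃ c : Sym2 V → ℕ, (∀ e ∈ G.edgeSet, c e < k) ∧ StronglyWoody G c}

def Cov (G : SimpleGraph V) (k : ℕ) : Prop :=
  ∃ F : ℕ → SimpleGraph V, (∀ i, (F i).IsAcyclic) ∧ ∀ a b, G.Adj a b → ∃ i < k, (F i).Adj a b

def cls (G : SimpleGraph V) (c : Sym2 V → ℕ) (i : ℕ) : SimpleGraph V where
  Adj a b := G.Adj a b ∧ c s(a, b) = i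
  symm := ⟨fun a b h => ⟨h.1.symm, by rw [Sym2.eq_swap]; exact h.2⟩⟩
  loopless := ⟨fun a h => h.1.ne rfl⟩

lemma cls_le (G : SimpleGraph V) (c : Sym2 V → ℕ) (i : ℕ) : cls G c i ≤ G := fun _ _ h => h.1

lemma cls_col {G : SimpleGraph V} {c : Sym2 V → ℕ} {i : ℕ} {e : Sym2 V}
    (h : e ∈ (cls G c i).edgeSet) : c e = i := by
  induction e using Sym2.ind
  exact h.2

lemma cls_ac {G : SimpleGraph V} {c : Sym2 V → ℕ} (h : Woody G c) (i : ℕ) :
    (cls G c i).IsAcyclic := fun u p hp =>
  h u (p.mapLe (cls_le G c i)) (hp.mapLe _) ⟨i, fun f hf => by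
    rw [Walk.edges_mapLe_eq_edges] at hf
    exact cls_col (p.edges_subset_edgeSet hf)⟩

lemma cov_iff (G : SimpleGraph V) (k : ℕ) :
    Cov G k ↔ ∃ c : Sym2 V → ℕ, (∀ e ∈ G.edgeSet, c e < k) ∧ Woody G c := by
  classical
  constructor
  · rintro ⟨F, hF, h⟩
    have : ∀ e : Sym2 V, ∃ i, e ∈ G.edgeSet → i < k ∧ e ∈ (F i).edgeSet := by
      intro e
      induction e using Sym2.ind with
      | h a b =>
        by_cases hab : G.Adj a b
        · obtain ⟨i, h1, h2⟩ := h a b hab
          exact ⟨i, fun _ => ⟨h1, h2⟩⟩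
        · exact ⟨0, fun h => absurd h hab⟩
    choose c hc using this
    refine ⟨c, fun e he => (hc e he).1, fun u p hp ⟨γ, hγ⟩ => ?_⟩
    exact hF γ (p.transfer (F γ) fun e he => hγ e he ▸ (hc e (p.edges_subset_edgeSet he)).2)
      (hp.transfer _)
  · rintro ⟨c, h1, h2⟩
    exact ⟨cls G c, cls_ac h2, fun a b h => ⟨_, h1 s(a, b) h, h, rfl⟩⟩

lemma forest_card {N : ℕ} {F : SimpleGraph (Fin (N + 1))} (h : F.IsAcyclic) :
    F.edgeSet.ncard ≤ N := by
  classical
  obtain ⟨T, h1, -, h2⟩ := (connected_top (V := Fin (N + 1))).exists_isTree_le_of_le_of_isAcyclic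
    le_top h
  have h3 := h2.card_edgeFinset
  have h4 : F.edgeSet.ncard ≤ T.edgeSet.ncard :=
    Set.ncard_le_ncard (edgeSet_mono h1) (Set.toFinite _)
  rw [← coe_edgeFinset T, Set.ncard_coe_finset] at h4
  simp only [Fintype.card_fin] at h3
  omega

lemma cov_card {N k : ℕ} {G : SimpleGraph (Fin (N + 1))} (h : Cov G k) :
    G.edgeSet.ncard ≤ k * N := by
  classical
  obtain ⟨F, hF, h⟩ := h
  have h1 : G.edgeFinset ⊆ (Finset.range k).biUnion fun i => (F i).edgeFinset := by
    intro e he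
    induction e using Sym2.ind with
    | h a b =>
      obtain ⟨i, h1, h2⟩ := h a b (by simpa using he)
      exact Finset.mem_biUnion.2 ⟨i, Finset.mem_range.2 h1, by simpa using h2⟩
  rw [← coe_edgeFinset G, Set.ncard_coe_finset]
  refine (Finset.card_le_card h1).trans (Finset.card_biUnion_le.trans ?_)
  refine (Finset.sum_le_card_nsmul _ _ N fun i _ => ?_).trans (by simp)
  have := forest_card (hF i)
  rwa [← coe_edgeFinset (F i), Set.ncard_coe_finset] at this

lemma cov_succ {G : SimpleGraph V} {k : ℕ} (h : Cov G k) (u v : V) :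
    Cov (G ⊔ edge u v) (k + 1) := by
  classical
  obtain ⟨F, hF, h⟩ := h
  refine ⟨Function.update F k (edge u v), fun i => ?_, fun a b hab => ?_⟩
  · rcases eq_or_ne i k with rfl | hi
    · rw [Function.update_self]
      by_cases huv : u = v
      · subst huv; simp
      · have := isAcyclic_bot.sup_edge_of_not_reachable (u := u) (v := v) (by simpa using huv)
        simpa using this
    · rw [Function.update_of_ne hi]; exact hF i
  · rcases hab with hab | hab
    · obtain ⟨i, h1, h2⟩ := h a b hab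
      exact ⟨i, by omega, by rwa [Function.update_of_ne h1.ne]⟩
    · exact ⟨k, by omega, by rwa [Function.update_self]⟩

lemma exch {G : SimpleGraph V} {k : ℕ} (hk : 2 ≤ k) {c : Sym2 V → ℕ}
    (h1 : ∀ e ∈ G.edgeSet, c e < k) (h2 : StronglyWoody G c) (u v : V) :
    Cov (G ⊔ edge u v) k := by
  classical
  have hw : Woody G c := fun x p hp ⟨γ, hγ⟩ => by
    obtain ⟨e, he⟩ := List.exists_mem_of_ne_nil p.edges (by
      intro h
      have := hp.three_le_length
      rw [← p.length_edges, h] at this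
      simp at this)
    exact h2 x p hp e he ⟨γ, fun f hf _ => hγ f hf⟩
  have hF := cls_ac hw
  have h0 : ∀ a b, G.Adj a b → ∃ i < k, (cls G c i).Adj a b :=
    fun a b h => ⟨_, h1 s(a, b) h, h, rfl⟩
  by_cases huv : u = v
  · subst huv
    exact ⟨cls G c, hF, by simpa using h0⟩
  by_cases hr : (cls G c 0).Reachable u v
  · obtain ⟨p, hp⟩ := hr.exists_isPath
    cases p with
    | nil => exact absurd rfl huv
    | cons h q =>
      rename_i w
      have hn : s(u, w) ∉ q.edges := ((Walk.cons_isPath_iff h q).1 hp).2 ∘ q.fst_mem_support_of_mem_edges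
      have a0 : ¬ ((cls G c 0).deleteEdges {s(u, w)}).Reachable u v := by
        intro hh
        have hb := isAcyclic_iff_forall_isBridge.1 (hF 0) (e := s(u, w)) h
        rw [isBridge_iff] at hb
        refine hb (hh.trans (Reachable.symm ⟨q.toDeleteEdges _ fun e he => ?_⟩))
        rintro rfl
        exact hn he
      have a1 : ¬ (cls G c 1).Reachable u w := by
        intro hh
        obtain ⟨r, hr⟩ := hh.symm.exists_isPath
        have hc : ∀ f ∈ (r.mapLe (cls_le G c 1)).edges, c f = 1 := fun f hf => by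
          rw [Walk.edges_mapLe_eq_edges] at hf
          exact cls_col (r.edges_subset_edgeSet hf)
        refine h2 u (.cons h.1 (r.mapLe (cls_le G c 1))) ?_ s(u, w) (by simp) ⟨1, fun f hf hne => ?_⟩
        · refine (Walk.cons_isCycle_iff _ _).2 ⟨hr.mapLe _, fun hm => ?_⟩
          have := hc _ hm
          rw [h.2] at this
          omega
        · rw [Walk.edges_cons] at hf
          exact hc f ((List.mem_cons.1 hf).resolve_left hne)
      refine ⟨fun i => if i = 0 then (cls G c 0).deleteEdges {s(u, w)} ⊔ edge u v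
        else if i = 1 then cls G c 1 ⊔ edge u w else cls G c i, fun i => ?_, fun a b hab => ?_⟩
      · dsimp only
        split_ifs
        · exact ((hF 0).anti (deleteEdges_le _)).sup_edge_of_not_reachable a0
        · exact (hF 1).sup_edge_of_not_reachable a1
        · exact hF i
      · rcases hab with hab | hab
        · by_cases he : s(a, b) = s(u, w)
          · refine ⟨1, by omega, Or.inr ?_⟩
            rw [edge_adj]
            exact ⟨Sym2.eq_iff.1 he, hab.ne⟩
          · obtain ⟨i, hi, hh⟩ := h0 a b hab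
            refine ⟨i, hi, ?_⟩
            dsimp only
            split_ifs with e0 e1
            · subst e0; exact Or.inl (by simpa [he] using hh)
            · subst e1; exact Or.inl hh
            · exact hh
        · exact ⟨0, by omega, Or.inr hab⟩
  · refine ⟨fun i => if i = 0 then cls G c 0 ⊔ edge u v else cls G c i, fun i => ?_,
      fun a b hab => ?_⟩
    · dsimp only
      split_ifs
      · exact (hF 0).sup_edge_of_not_reachable hr
      · exact hF i
    · rcases hab with hab | hab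
      · obtain ⟨i, hi, hh⟩ := h0 a b hab
        refine ⟨i, hi, ?_⟩
        dsimp only
        split_ifs with e0
        · subst e0; exact Or.inl hh
        · exact hh
      · exact ⟨0, by omega, Or.inr hab⟩

theorem result : ∀ k : ℕ, 2 ≤ k → ∀ g : ℕ, ∃ (n : ℕ) (G : SimpleGraph (Fin n)),
    arb G = k ∧ (g : ℕ∞) ≤ G.egirth ∧ arb G < zeta G := by
  classical
  intro k hk g
  obtain ⟨N, hN⟩ : ∃ N, 2 * (4 * k + 1) ^ (g + 1) ≤ N + 1 := ⟨_, Nat.le_succ _⟩
  obtain ⟨H, hg, -, hd⟩ := Pool.Agent.Lib.helper3.Girth.exists_girth_dense g (4 * k) (N + 1) hN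
  have hH : ¬ Cov H k := fun h => by
    have := cov_card h
    nlinarith
  obtain ⟨G, hG⟩ := exists_maximal_of_wellFoundedGT (fun G => G ≤ H ∧ Cov G k)
    ⟨⊥, bot_le, fun _ => ⊥, fun _ => isAcyclic_bot, by simp⟩
  obtain ⟨u, v, huv, hn⟩ : ∃ u v, H.Adj u v ∧ ¬ G.Adj u v := by
    by_contra hh
    push Not at hh
    have : G = H := le_antisymm hG.1.1 fun a b h => hh a b h
    exact hH (this ▸ hG.1.2)
  have hm : ¬ Cov (G ⊔ edge u v) k := fun h => by
    have := hG.2 ⟨sup_le hG.1.1 ((edge_le_iff _).2 (Or.inr huv)), h⟩ le_sup_left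
    exact hn (this (Or.inr (by rw [edge_adj]; exact ⟨Or.inl ⟨rfl, rfl⟩, huv.ne⟩)))
  have ha : arb G = k := by
    apply le_antisymm (Nat.sInf_le ((cov_iff G k).1 hG.1.2))
    refine le_csInf ⟨k, (cov_iff G k).1 hG.1.2⟩ fun j hj => ?_
    by_contra hlt
    obtain ⟨F, h1, h2⟩ := cov_succ ((cov_iff G j).2 hj) u v
    exact hm ⟨F, h1, fun a b h => (h2 a b h).imp fun i hi => ⟨by omega, hi.2⟩⟩
  refine ⟨_, G, ha, ?_, ?_⟩
  · rw [le_egirth]
    intro a w hw
    have := hg a (w.mapLe hG.1.1) (hw.mapLe _)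
    rw [Walk.length_mapLe] at this
    exact_mod_cast this.le
  · rw [ha]
    refine Nat.succ_le_iff.1 <| le_csInf ⟨Fintype.card (Sym2 (Fin (N + 1))), fun e => Fintype.equivFin _ e,
      fun e _ => Fin.is_lt _, fun x p hp e he ⟨γ, hγ⟩ => ?_⟩ fun j ⟨c, h1, h2⟩ => ?_
    · have h3 := hp.three_le_length
      rw [← p.length_edges, ← List.toFinset_card_of_nodup hp.edges_nodup] at h3
      have h4 : 1 < (p.edges.toFinset.erase e).card := by
        rw [Finset.card_erase_of_mem (List.mem_toFinset.2 he)]; omega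
      obtain ⟨a, ha, b, hb, hab⟩ := Finset.one_lt_card.1 h4
      rw [Finset.mem_erase, List.mem_toFinset] at ha hb
      exact hab ((Fintype.equivFin _).injective
        (Fin.ext ((hγ a ha.2 ha.1).trans (hγ b hb.2 hb.1).symm)))
    · by_contra hlt
      exact hm (exch hk (fun e he => lt_of_lt_of_le (h1 e he) (by omega)) h2 u v)

end Pool.Agent.Results.MP_8cd00c_co.Cex
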